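import Pool.Agent.Helper49.QP.Fb.Base
import Pool.Agent.Helper71.PN.Calc

/-!
# The class of the algebras over a small field whose base change belongs to the class
-/

set_option autoImplicit false

namespace Pool.Agent.Helper49.CP

open Pool.Agent.Helper29.CQ Pool.Agent.Helper65.CC Pool.Agent.Helper87.CC
  Pool.Agent.Helper65.CC.KFn Pool.Agent.Helper9.QP Pool.Agent.Helper49.QP
open Pool.Agent.Helper71.PN
open TensorProduct

variable {k K : Type} [Field k] [Field K] [Algebra k K]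
  {G : ∀ (R : Type) [CommRing R] [Algebra K R], Prop}

/-- the algebras over the small field whose base change belongs to the class -/
def Gk (k : Type) {K : Type} [Field k] [Field K] [Algebra k K]
    (G : ∀ (R : Type) [CommRing R] [Algebra K R], Prop) (R : Type) [CommRing R] [Algebra k R] :
    Prop := Algebra.FiniteType k R ∧ G (K ⊗[k] R)

/-- the base change of coordinates -/
def bcC (K : Type) [Field K] [Algebra k K] {F : KFn k} (u : Coord F) : Coord (bc K F) where
  val {R} _ _ x := @Coord.val k _ F u R _ (rs k K R) x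
  nat {R S} _ _ _ _ f x := @Coord.nat k _ F u R S _ _ (rs k K R) (rs k K S) (dn k f) x

/-- base change of closed subfunctors -/
def bcCls (K : Type) [Field K] [Algebra k K] {F : KFn k} (u : Coord F) :
    Iso (bc K (F.cls u)) ((bc K F).cls (bcC K u)) where
  hom x := x
  inv x := x
  inv_hom _ := rfl
  hom_inv _ := rfl
  nat _ _ := rfl

/-- base change of open subfunctors -/
def bcOpn (K : Type) [Field K] [Algebra k K] {F : KFn k} (u : Coord F) :
    Iso (bc K (F.opn u)) ((bc K F).opn (bcC K u)) where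
  hom x := x
  inv x := x
  inv_hom _ := rfl
  hom_inv _ := rfl
  nat _ _ := rfl

/-- base change of lines -/
def bcLine (K : Type) [Field K] [Algebra k K] (F : KFn k) : Iso (bc K F.line) (bc K F).line where
  hom x := x
  inv x := x
  inv_hom _ := rfl
  hom_inv _ := rfl
  nat _ _ := rfl

/-- the functor represented by an algebra -/
def hf (R : Type) [CommRing R] [Algebra k R] : KFn k where
  obj S' _ _ := R →ₐ[k] S'
  map f g := f.comp g
  id_map _ := rfl
  comp_map _ _ _ := rfl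

theorem rep_hf (R : Type) [CommRing R] [Algebra k R] : (hf R : KFn k).Rep R (AlgHom.id k R) :=
  fun _ _ _ x => ⟨x, AlgHom.comp_id x, fun y hy => (AlgHom.comp_id y).symm.trans hy⟩

/-- the function on the represented functor -/
def hc {R : Type} [CommRing R] [Algebra k R] (f : R) : Coord (hf R : KFn k) where
  val {S'} _ _ g := (show R →ₐ[k] S' from g) f
  nat _ _ := rfl

theorem exists_equiv {R : Type} [CommRing R] [Algebra k R] (f : R) : ∃ g : K ⊗[k] R,
    Nonempty ((K ⊗[k] (R ⧸ Ideal.span {f})) ≃ₐ[K] ((K ⊗[k] R) ⧸ Ideal.span {g})) ∧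
    Nonempty ((K ⊗[k] Localization.Away f) ≃ₐ[K] Localization.Away g) := by
  have h0 := rep_hf (k := k) R
  obtain ⟨w, hw⟩ := rep_bc (K := K) h0
  obtain ⟨a1, ha1⟩ := h0.cls (hc f)
  obtain ⟨a2, ha2⟩ := h0.opn (hc f)
  obtain ⟨b1, hb1⟩ := rep_bc (K := K) ha1
  obtain ⟨b2, hb2⟩ := rep_bc (K := K) ha2
  obtain ⟨c1, hc1⟩ := hw.cls (bcC K (hc f))
  obtain ⟨c2, hc2⟩ := hw.opn (bcC K (hc f))
  exact ⟨_, (hb1.iso (bcCls K (hc f))).equiv hc1, (hb2.iso (bcOpn K (hc f))).equiv hc2⟩

theorem exists_equiv_poly (R : Type) [CommRing R] [Algebra k R] :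
    Nonempty ((Polynomial (K ⊗[k] R)) ≃ₐ[K] (K ⊗[k] Polynomial R)) := by
  have h0 := rep_hf (k := k) R
  obtain ⟨w, hw⟩ := rep_bc (K := K) h0
  obtain ⟨a1, ha1⟩ := h0.line
  obtain ⟨b1, hb1⟩ := rep_bc (K := K) ha1
  obtain ⟨c1, hc1⟩ := hw.line
  exact hc1.equiv (hb1.iso (bcLine K _))

/-- **the class over the small field** -/
theorem ops_k (hG : KOps K G) : KOps k (fun R _ _ => Gk k G R) where
  ft _ _ _ h := h.1
  zero R _ _ h := by
    refine ⟨?_, hG.zero _ ?_⟩
    · refine (inferInstance : Algebra.FiniteType k k).of_surjective (Algebra.ofId k R) ?_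
      intro x
      exact ⟨0, Subsingleton.elim _ _⟩
    · refine subsingleton_of_zero_eq_one ?_
      have h1 : (1 : K ⊗[k] R) = (1 : K) ⊗ₜ[k] (1 : R) := rfl
      rw [h1, Subsingleton.elim (1 : R) 0, TensorProduct.tmul_zero]
  iso R S _ _ _ _ e h := by
    refine ⟨h.1.equiv e, hG.iso _ _ ?_ h.2⟩
    exact Algebra.TensorProduct.congr AlgEquiv.refl e
  glue R _ _ f hft h1 h2 := by
    obtain ⟨g, ⟨e1⟩, ⟨e2⟩⟩ := exists_equiv (k := k) (K := K) f
    have hftK : Algebra.FiniteType K (K ⊗[k] R) := inferInstance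
    exact ⟨hft, hG.glue _ g hftK (hG.iso _ _ e1 h1.2) (hG.iso _ _ e2 h2.2)⟩
  closed R _ _ f h1 h2 := by
    obtain ⟨g, ⟨e1⟩, ⟨e2⟩⟩ := exists_equiv (k := k) (K := K) f
    exact ⟨ft_quot h1.1 _, hG.iso _ _ e1.symm (hG.closed _ g h1.2 (hG.iso _ _ e2 h2.2))⟩
  opn R _ _ f h1 h2 := by
    obtain ⟨g, ⟨e1⟩, ⟨e2⟩⟩ := exists_equiv (k := k) (K := K) f
    exact ⟨ft_away h1.1 _, hG.iso _ _ e2.symm (hG.opn _ g h1.2 (hG.iso _ _ e1 h2.2))⟩
  poly R _ _ h := by
    obtain ⟨e⟩ := exists_equiv_poly (k := k) (K := K) R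
    exact ⟨ft_poly h.1, hG.iso _ _ e (hG.poly _ h.2)⟩

/-- members over the small field -/
theorem mem_of_k (hG : KOps K G) {F : KFn k} [hF : Rp F]
    (h : F.Mem (fun R _ _ => Gk k G R)) : (bc K F).Mem G := by
  obtain ⟨A, _, _, a, hA, ha⟩ := hF.out
  obtain ⟨w, hw⟩ := rep_bc (K := K) ha
  exact Mem.of_rep hG hw (h A a hA ha).2

/-- constant curves -/
theorem mem_k_D1 [Finite k] (hW : Cst k G) {F : KFn k} (h : D1 F) :
    F.Mem (fun R _ _ => Gk k G R) := by
  intro A _ _ a hA ha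
  exact ⟨hA, hW A (ft_alg (ft_fin k) hA) (h A a hA ha).2⟩

end Pool.Agent.Helper49.CP
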