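import Pool.Agent.Helper49.CP.Disc
import Pool.Agent.Helper71.CT.Main

/-!
# The cones `u ^ 2 = F(x, y, z)`, `F` of degree six for the weights 1, 2, 1
-/

set_option autoImplicit false

namespace Pool.Agent.Helper49.CP

open Pool.Agent.Helper29.CQ Pool.Agent.Helper65.CC Pool.Agent.Helper87.CC
  Pool.Agent.Helper65.CC.KFn
open Pool.Agent.Helper71.CP Pool.Agent.Helper71.PN
open Pool.Agent.Helper71.CT (Dv W top Cyl6)
open Pool.Agent.Helper49.CT (aeval_CX)
open MvPolynomial (IsWeightedHomogeneous)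
open Polynomial

variable {K : Type} [Field K] {G : ∀ (R : Type) [CommRing R] [Algebra K R], Prop}

/-- the scaling of the cone -/
noncomputable def CWs (F : MvPolynomial (Fin 3) K) (hF : IsWeightedHomogeneous wt F 6) :
    Sc (CW F) where
  sc u x := ⟨(u * x.1.1, (u : _) ^ 2 * x.1.2.1, u * x.1.2.2.1, (u : _) ^ 3 * x.1.2.2.2), by
    have h : x.1.2.2.2 ^ 2 - ev F x.1.1 x.1.2.1 x.1.2.2.1 = 0 := x.2
    change ((u : _) ^ 3 * x.1.2.2.2) ^ 2 - ev F (u * x.1.1) ((u : _) ^ 2 * x.1.2.1)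
      (u * x.1.2.2.1) = 0
    rw [ev_scale hF]
    linear_combination (u : _) ^ 6 * h⟩
  one x := by
    apply Subtype.ext
    refine Prod.ext ?_ (Prod.ext ?_ (Prod.ext ?_ ?_))
    · exact one_mul _
    · change ((1 : _) : _) ^ 2 * x.1.2.1 = x.1.2.1
      rw [one_pow, one_mul]
    · exact one_mul _
    · change ((1 : _) : _) ^ 3 * x.1.2.2.2 = x.1.2.2.2
      rw [one_pow, one_mul]
  mul u v x := by
    apply Subtype.ext
    refine Prod.ext ?_ (Prod.ext ?_ (Prod.ext ?_ ?_))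
    · exact mul_assoc _ _ _
    · change ((u * v : _) : _) ^ 2 * x.1.2.1 = (u : _) ^ 2 * ((v : _) ^ 2 * x.1.2.1)
      rw [Units.val_mul]
      ring
    · exact mul_assoc _ _ _
    · change ((u * v : _) : _) ^ 3 * x.1.2.2.2 = (u : _) ^ 3 * ((v : _) ^ 3 * x.1.2.2.2)
      rw [Units.val_mul]
      ring
  nat f u x := by
    apply Subtype.ext
    refine Prod.ext ?_ (Prod.ext ?_ (Prod.ext ?_ ?_))
    · exact map_mul f _ _
    · change f ((u : _) ^ 2 * x.1.2.1) = _
      rw [map_mul, map_pow]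
      rfl
    · exact map_mul f _ _
    · change f ((u : _) ^ 3 * x.1.2.2.2) = _
      rw [map_mul, map_pow]
      rfl

/-- the coordinate `z` -/
noncomputable def CWz (F : MvPolynomial (Fin 3) K) : Coord (CW F) :=
  ⟨fun x => x.1.2.2.1, fun _ _ => rfl⟩

/-- the slice `z = 1` -/
noncomputable def CWslice (F : MvPolynomial (Fin 3) K) (hF : IsWeightedHomogeneous wt F 6) :
    Iso ((CW F).cls (subC (CWz F) 1)) (W (al F) (ap F 2) (ap F 1) (ap F 0)) where
  hom {R} _ _ x := ⟨(x.1.1.1, x.1.1.2.1, x.1.1.2.2.2), by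
    have h : x.1.1.2.2.2 ^ 2 - ev F x.1.1.1 x.1.1.2.1 x.1.1.2.2.1 = 0 := x.1.2
    have h1 : x.1.1.2.2.1 - algebraMap K R 1 = 0 := x.2
    rw [map_one, sub_eq_zero] at h1
    rw [h1, ev_one hF] at h
    exact h⟩
  inv {R} _ _ y := ⟨⟨(y.1.1, y.1.2.1, 1, y.1.2.2), by
    have h : y.1.2.2 ^ 2 - Dv (al F) (ap F 2) (ap F 1) (ap F 0) y.1.1 y.1.2.1 = 0 := y.2
    change y.1.2.2 ^ 2 - ev F y.1.1 y.1.2.1 1 = 0
    rw [ev_one hF]
    exact h⟩, by
    change 1 - algebraMap K R 1 = 0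
    rw [map_one, sub_self]⟩
  inv_hom {R} _ _ x := by
    have h1 : x.1.1.2.2.1 - algebraMap K R 1 = 0 := x.2
    rw [map_one, sub_eq_zero] at h1
    exact Subtype.ext (Subtype.ext (Prod.ext rfl (Prod.ext rfl (Prod.ext h1.symm rfl))))
  hom_inv {R} _ _ y := rfl
  nat {R S} _ _ _ _ f x := rfl

/-! ### The part at infinity -/

/-- the values of the form at infinity -/
def hinf (α c₂ c₄ c₆ : K) {R : Type} [CommRing R] [Algebra K R] (x y : R) : R :=
  algebraMap K R α * y ^ 3 + algebraMap K R c₂ * (x ^ 2 * y ^ 2) +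
    algebraMap K R c₄ * (x ^ 4 * y) + algebraMap K R c₆ * x ^ 6

theorem hinf_map (α c₂ c₄ c₆ : K) {R S : Type} [CommRing R] [CommRing S] [Algebra K R]
    [Algebra K S] (f : R →ₐ[K] S) (x y : R) :
    f (hinf α c₂ c₄ c₆ x y) = hinf α c₂ c₄ c₆ (f x) (f y) := by
  simp only [hinf, map_add, map_mul, map_pow, AlgHom.commutes]

/-- the cone `u ^ 2 = α y ^ 3 + c₂ x ^ 2 y ^ 2 + c₄ x ^ 4 y + c₆ x ^ 6` -/
def NI (α c₂ c₄ c₆ : K) : KFn K :=
  (A3 K).cls ⟨fun x => x.2.2 ^ 2 - hinf α c₂ c₄ c₆ x.1 x.2.1, fun f x => by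
    rw [map_sub, map_pow, hinf_map]
    rfl⟩

instance : Rp (A3 K) := Rp.iso isoA3

instance (α c₂ c₄ c₆ : K) : Rp (NI α c₂ c₄ c₆) := by
  unfold NI
  infer_instance

/-- the scaling of the cone -/
def NIs (α c₂ c₄ c₆ : K) : Sc (NI α c₂ c₄ c₆) where
  sc u x := ⟨(u * x.1.1, (u : _) ^ 2 * x.1.2.1, (u : _) ^ 3 * x.1.2.2), by
    have h : x.1.2.2 ^ 2 - hinf α c₂ c₄ c₆ x.1.1 x.1.2.1 = 0 := x.2
    change ((u : _) ^ 3 * x.1.2.2) ^ 2 - hinf α c₂ c₄ c₆ (u * x.1.1) ((u : _) ^ 2 * x.1.2.1) = 0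
    unfold hinf at h ⊢
    linear_combination (u : _) ^ 6 * h⟩
  one x := by
    apply Subtype.ext
    refine Prod.ext ?_ (Prod.ext ?_ ?_)
    · exact one_mul _
    · change ((1 : _) : _) ^ 2 * x.1.2.1 = x.1.2.1
      rw [one_pow, one_mul]
    · change ((1 : _) : _) ^ 3 * x.1.2.2 = x.1.2.2
      rw [one_pow, one_mul]
  mul u v x := by
    apply Subtype.ext
    refine Prod.ext ?_ (Prod.ext ?_ ?_)
    · exact mul_assoc _ _ _
    · change ((u * v : _) : _) ^ 2 * x.1.2.1 = (u : _) ^ 2 * ((v : _) ^ 2 * x.1.2.1)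
      rw [Units.val_mul]
      ring
    · change ((u * v : _) : _) ^ 3 * x.1.2.2 = (u : _) ^ 3 * ((v : _) ^ 3 * x.1.2.2)
      rw [Units.val_mul]
      ring
  nat f u x := by
    apply Subtype.ext
    refine Prod.ext ?_ (Prod.ext ?_ ?_)
    · exact map_mul f _ _
    · change f ((u : _) ^ 2 * x.1.2.1) = _
      rw [map_mul, map_pow]
      rfl
    · change f ((u : _) ^ 3 * x.1.2.2) = _
      rw [map_mul, map_pow]
      rfl

/-- the coordinate `x` -/
def NIx (α c₂ c₄ c₆ : K) : Coord (NI α c₂ c₄ c₆) := ⟨fun x => x.1.1, fun _ _ => rfl⟩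

theorem mem_NI (hG : KOps K G) (α c₂ c₄ c₆ : K)
    (h1 : (BC (C α * X ^ 3 + C c₂ * X ^ 2 + C c₄ * X + C c₆)).Mem G)
    (h0 : (BC (C α * X ^ 3)).Mem G) : (NI α c₂ c₄ c₆).Mem G := by
  refine (NIs α c₂ c₄ c₆).mem hG (NIx _ _ _ _) (fun _ _ => rfl) (Mem.of_iso ?_ h1)
    (Mem.of_iso ?_ h0)
  · have key : ∀ (R : Type) [CommRing R] [Algebra K R] (y : R),
        aeval y (C α * X ^ 3 + C c₂ * X ^ 2 + C c₄ * X + C c₆) = hinf α c₂ c₄ c₆ 1 y := by
      intro R _ _ y
      simp only [hinf, map_add, map_mul, map_pow, aeval_C, aeval_X]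
      ring
    exact
      { hom := fun {R} _ _ x => ⟨(x.1.1.2.1, x.1.1.2.2), by
          have h : x.1.1.2.2 ^ 2 - hinf α c₂ c₄ c₆ x.1.1.1 x.1.1.2.1 = 0 := x.1.2
          have h2 : x.1.1.1 - algebraMap K R 1 = 0 := x.2
          rw [map_one, sub_eq_zero] at h2
          rw [h2] at h
          change x.1.1.2.2 ^ 2 - aeval x.1.1.2.1 (C α * X ^ 3 + C c₂ * X ^ 2 + C c₄ * X + C c₆) = 0
          rw [key]
          exact h⟩
        inv := fun {R} _ _ y => ⟨⟨(1, y.1.1, y.1.2), by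
          have h : y.1.2 ^ 2 - aeval y.1.1 (C α * X ^ 3 + C c₂ * X ^ 2 + C c₄ * X + C c₆) = 0 :=
            y.2
          rw [key] at h
          exact h⟩, by
          change 1 - algebraMap K R 1 = 0
          rw [map_one, sub_self]⟩
        inv_hom := fun {R} _ _ x => by
          have h2 : x.1.1.1 - algebraMap K R 1 = 0 := x.2
          rw [map_one, sub_eq_zero] at h2
          exact Subtype.ext (Subtype.ext (Prod.ext h2.symm rfl))
        hom_inv := fun {R} _ _ y => rfl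
        nat := fun {R S} _ _ _ _ f x => rfl }
  · have key : ∀ (R : Type) [CommRing R] [Algebra K R] (y : R),
        aeval y (C α * X ^ 3) = hinf α c₂ c₄ c₆ 0 y := by
      intro R _ _ y
      simp only [hinf, map_mul, map_pow, aeval_C, aeval_X]
      ring
    exact
      { hom := fun {R} _ _ x => ⟨(x.1.1.2.1, x.1.1.2.2), by
          have h : x.1.1.2.2 ^ 2 - hinf α c₂ c₄ c₆ x.1.1.1 x.1.1.2.1 = 0 := x.1.2
          have h2 : x.1.1.1 = 0 := x.2
          rw [h2] at h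
          change x.1.1.2.2 ^ 2 - aeval x.1.1.2.1 (C α * X ^ 3) = 0
          rw [key]
          exact h⟩
        inv := fun {R} _ _ y => ⟨⟨(0, y.1.1, y.1.2), by
          have h : y.1.2 ^ 2 - aeval y.1.1 (C α * X ^ 3) = 0 := y.2
          rw [key] at h
          exact h⟩, rfl⟩
        inv_hom := fun {R} _ _ x => by
          have h2 : x.1.1.1 = 0 := x.2
          exact Subtype.ext (Subtype.ext (Prod.ext h2.symm rfl))
        hom_inv := fun {R} _ _ y => rfl
        nat := fun {R S} _ _ _ _ f x => by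
          exact Subtype.ext (Prod.ext rfl rfl) }

/-- the part `z = 0` -/
noncomputable def CWinf (F : MvPolynomial (Fin 3) K) (hF : IsWeightedHomogeneous wt F 6) :
    Iso ((CW F).cls (CWz F))
      (NI (al F) ((ap F 2).coeff 2) ((ap F 1).coeff 4) ((ap F 0).coeff 6)) where
  hom {R} _ _ x := ⟨(x.1.1.1, x.1.1.2.1, x.1.1.2.2.2), by
    have h : x.1.1.2.2.2 ^ 2 - ev F x.1.1.1 x.1.1.2.1 x.1.1.2.2.1 = 0 := x.1.2
    have h1 : x.1.1.2.2.1 = 0 := x.2
    rw [h1, ev_z0 hF] at h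
    exact h⟩
  inv {R} _ _ y := ⟨⟨(y.1.1, y.1.2.1, 0, y.1.2.2), by
    have h : y.1.2.2 ^ 2 - hinf (al F) ((ap F 2).coeff 2) ((ap F 1).coeff 4)
      ((ap F 0).coeff 6) y.1.1 y.1.2.1 = 0 := y.2
    change y.1.2.2 ^ 2 - ev F y.1.1 y.1.2.1 0 = 0
    rw [ev_z0 hF]
    exact h⟩, rfl⟩
  inv_hom {R} _ _ x := by
    have h1 : x.1.1.2.2.1 = 0 := x.2
    exact Subtype.ext (Subtype.ext (Prod.ext rfl (Prod.ext rfl (Prod.ext h1.symm rfl))))
  hom_inv {R} _ _ y := rfl
  nat {R S} _ _ _ _ f x := Subtype.ext (Prod.ext rfl (Prod.ext rfl rfl))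

theorem mem_X3 [IsAlgClosed K] (hG : GOps K G) (α : K) : (BC (C α * X ^ 3)).Mem G := by
  have h : (C α * X ^ 3 : K[X]) = X ^ 2 * (C α * X) := by ring
  rw [h]
  refine BC.sq_mul hG _ X_ne_zero (BC.deg_two hG _ ?_)
  exact (natDegree_C_mul_le _ _).trans (natDegree_X_le.trans one_le_two)

/-- the reduction to the slice -/
theorem mem_CW [IsAlgClosed K] (hG : GOps K G) (F : MvPolynomial (Fin 3) K)
    (hF : IsWeightedHomogeneous wt F 6)
    (h1 : (W (al F) (ap F 2) (ap F 1) (ap F 0)).Mem G)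
    (h0 : (BC (top (al F) (ap F 2) (ap F 1) (ap F 0))).Mem G) : (CW F).Mem G :=
  (CWs F hF).mem hG.toKOps (CWz F) (fun _ _ => rfl) (Mem.of_iso (CWslice F hF) h1)
    (Mem.of_iso (CWinf F hF) (mem_NI hG.toKOps _ _ _ _ h0 (mem_X3 hG _)))

/-! ### Cylinders -/

/-- the shear `y ↦ y + q(x, z)` -/
noncomputable def shear (q : K[X]) : Chg K where
  fwd := ![MvPolynomial.X 0, MvPolynomial.X 1 + (MvPolynomial.C (q.coeff 2) * MvPolynomial.X 0 ^ 2 +
    MvPolynomial.C (q.coeff 1) * (MvPolynomial.X 0 * MvPolynomial.X 2) +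
    MvPolynomial.C (q.coeff 0) * MvPolynomial.X 2 ^ 2), MvPolynomial.X 2]
  bwd := ![MvPolynomial.X 0, MvPolynomial.X 1 - (MvPolynomial.C (q.coeff 2) * MvPolynomial.X 0 ^ 2 +
    MvPolynomial.C (q.coeff 1) * (MvPolynomial.X 0 * MvPolynomial.X 2) +
    MvPolynomial.C (q.coeff 0) * MvPolynomial.X 2 ^ 2), MvPolynomial.X 2]
  hfwd i := by
    have h0 := MvPolynomial.isWeightedHomogeneous_X K wt 0
    have h1 := MvPolynomial.isWeightedHomogeneous_X K wt 1
    have h2 := MvPolynomial.isWeightedHomogeneous_X K wt 2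
    fin_cases i
    · exact h0
    · exact h1.add ((((h0.pow 2).C_mul _).add ((h0.mul h2).C_mul _)).add ((h2.pow 2).C_mul _))
    · exact h2
  hbwd i := by
    have h0 := MvPolynomial.isWeightedHomogeneous_X K wt 0
    have h1 := MvPolynomial.isWeightedHomogeneous_X K wt 1
    have h2 := MvPolynomial.isWeightedHomogeneous_X K wt 2
    fin_cases i
    · exact h0
    · exact h1.sub ((((h0.pow 2).C_mul _).add ((h0.mul h2).C_mul _)).add ((h2.pow 2).C_mul _))
    · exact h2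
  fwd_bwd i := by
    fin_cases i
    · exact MvPolynomial.aeval_X _ _
    · simp [MvPolynomial.algebraMap_eq]
    · exact MvPolynomial.aeval_X _ _
  bwd_fwd i := by
    fin_cases i
    · exact MvPolynomial.aeval_X _ _
    · simp [MvPolynomial.algebraMap_eq]
    · exact MvPolynomial.aeval_X _ _

theorem ev_shear (F : MvPolynomial (Fin 3) K) (q : K[X]) (dq : q.natDegree ≤ 2) {R : Type}
    [CommRing R] [Algebra K R] (x y : R) :
    ev (MvPolynomial.aeval (shear q).fwd F) x y 1 = ev F x (y + aeval x q) 1 := by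
  have h0 : ev ((shear q).fwd 0) x y 1 = x := ev_X 0 x y 1
  have h2 : ev ((shear q).fwd 2) x y 1 = 1 := ev_X 2 x y 1
  have h1 : ev ((shear q).fwd 1) x y 1 = y + aeval x q := by
    rw [Pool.Agent.Helper49.CT.aeval_low x q 2 dq]
    change ev (MvPolynomial.X 1 + (MvPolynomial.C (q.coeff 2) * MvPolynomial.X 0 ^ 2 +
      MvPolynomial.C (q.coeff 1) * (MvPolynomial.X 0 * MvPolynomial.X 2) +
      MvPolynomial.C (q.coeff 0) * MvPolynomial.X 2 ^ 2)) x y 1 = _
    simp only [ev_add, ev_mul, ev_pow, ev_C, ev_X, Finset.sum_range_succ, Finset.sum_range_zero,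
      Matrix.cons_val_zero, Matrix.cons_val_one, Matrix.cons_val]
    ring
  rw [ev_aeval, h0, h1, h2]

theorem wh_noX {F : MvPolynomial (Fin 3) K} {d : ℕ} (hF : IsWeightedHomogeneous wt F d) :
    IsWeightedHomogeneous wt (MvPolynomial.aeval
      (![0, MvPolynomial.X 1, MvPolynomial.X 2] : Fin 3 → MvPolynomial (Fin 3) K) F) d := by
  refine wh_aeval hF fun i => ?_
  fin_cases i
  · exact MvPolynomial.isWeightedHomogeneous_zero _ _ _
  · exact MvPolynomial.isWeightedHomogeneous_X K wt 1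
  · exact MvPolynomial.isWeightedHomogeneous_X K wt 2

theorem wh_noY {F : MvPolynomial (Fin 3) K} {d : ℕ} (hF : IsWeightedHomogeneous wt F d) :
    IsWeightedHomogeneous wt (MvPolynomial.aeval
      (![MvPolynomial.X 0, 0, MvPolynomial.X 2] : Fin 3 → MvPolynomial (Fin 3) K) F) d := by
  refine wh_aeval hF fun i => ?_
  fin_cases i
  · exact MvPolynomial.isWeightedHomogeneous_X K wt 0
  · exact MvPolynomial.isWeightedHomogeneous_zero _ _ _
  · exact MvPolynomial.isWeightedHomogeneous_X K wt 2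

theorem ev_noX (F : MvPolynomial (Fin 3) K) {R : Type} [CommRing R] [Algebra K R] (x y z : R) :
    ev (MvPolynomial.aeval
      (![0, MvPolynomial.X 1, MvPolynomial.X 2] : Fin 3 → MvPolynomial (Fin 3) K) F) x y z =
      ev F 0 y z := by
  have h0 : ev (![0, MvPolynomial.X 1, MvPolynomial.X 2] 0 : MvPolynomial (Fin 3) K) x y z = 0 :=
    map_zero _
  have h1 : ev (![0, MvPolynomial.X 1, MvPolynomial.X 2] 1 : MvPolynomial (Fin 3) K) x y z = y :=
    ev_X 1 x y z
  have h2 : ev (![0, MvPolynomial.X 1, MvPolynomial.X 2] 2 : MvPolynomial (Fin 3) K) x y z = z :=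
    ev_X 2 x y z
  rw [ev_aeval, h0, h1, h2]

theorem ev_noY (F : MvPolynomial (Fin 3) K) {R : Type} [CommRing R] [Algebra K R] (x y z : R) :
    ev (MvPolynomial.aeval
      (![MvPolynomial.X 0, 0, MvPolynomial.X 2] : Fin 3 → MvPolynomial (Fin 3) K) F) x y z =
      ev F x 0 z := by
  have h0 : ev (![MvPolynomial.X 0, 0, MvPolynomial.X 2] 0 : MvPolynomial (Fin 3) K) x y z = x :=
    ev_X 0 x y z
  have h1 : ev (![MvPolynomial.X 0, 0, MvPolynomial.X 2] 1 : MvPolynomial (Fin 3) K) x y z = 0 :=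
    map_zero _
  have h2 : ev (![MvPolynomial.X 0, 0, MvPolynomial.X 2] 2 : MvPolynomial (Fin 3) K) x y z = z :=
    ev_X 2 x y z
  rw [ev_aeval, h0, h1, h2]

theorem not_cyl (F : MvPolynomial (Fin 3) K) (hF : IsWeightedHomogeneous wt F 6)
    (hα : al F ≠ 0) (h : ∀ τ : Chg K, ¬ NoX (MvPolynomial.aeval τ.fwd F)) :
    ¬ Cyl6 (al F) (ap F 2) (ap F 1) (ap F 0) := by
  rintro (⟨-, q, dq, b2, b4, b6, hq⟩ | ⟨h0, -⟩)
  · apply h (shear q)
    have h1 := wh_aeval hF (shear q).hfwd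
    refine wh_ext (wh_noX h1) h1 fun R _ _ x y => ?_
    rw [ev_noX, ev_shear F q dq, ev_shear F q dq, ev_one hF, ev_one hF, hq, hq]
    simp only [Dv, aeval_C]
  · exact hα h0

/-! ### The linear change of coordinates -/

/-- the change `x ↦ x₀ x - z`, `z ↦ x` -/
noncomputable def lin (x₀ : K) : Chg K where
  fwd := ![MvPolynomial.C x₀ * MvPolynomial.X 0 - MvPolynomial.X 2, MvPolynomial.X 1,
    MvPolynomial.X 0]
  bwd := ![MvPolynomial.X 2, MvPolynomial.X 1,
    MvPolynomial.C x₀ * MvPolynomial.X 2 - MvPolynomial.X 0]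
  hfwd i := by
    have h0 := MvPolynomial.isWeightedHomogeneous_X K wt 0
    have h1 := MvPolynomial.isWeightedHomogeneous_X K wt 1
    have h2 := MvPolynomial.isWeightedHomogeneous_X K wt 2
    fin_cases i
    · exact (h0.C_mul _).sub h2
    · exact h1
    · exact h0
  hbwd i := by
    have h0 := MvPolynomial.isWeightedHomogeneous_X K wt 0
    have h1 := MvPolynomial.isWeightedHomogeneous_X K wt 1
    have h2 := MvPolynomial.isWeightedHomogeneous_X K wt 2
    fin_cases i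
    · exact h2
    · exact h1
    · exact (h2.C_mul _).sub h0
  fwd_bwd i := by
    fin_cases i
    · exact MvPolynomial.aeval_X _ _
    · exact MvPolynomial.aeval_X _ _
    · simp [MvPolynomial.algebraMap_eq]
  bwd_fwd i := by
    fin_cases i
    · simp [MvPolynomial.algebraMap_eq]
    · exact MvPolynomial.aeval_X _ _
    · exact MvPolynomial.aeval_X _ _

theorem ev_lin (F : MvPolynomial (Fin 3) K) (x₀ : K) {R : Type} [CommRing R] [Algebra K R]
    (x y z : R) : ev (MvPolynomial.aeval (lin x₀).fwd F) x y z =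
      ev F (algebraMap K R x₀ * x - z) y x := by
  have h0 : ev ((lin x₀).fwd 0) x y z = algebraMap K R x₀ * x - z := by
    change ev (MvPolynomial.C x₀ * MvPolynomial.X 0 - MvPolynomial.X 2) x y z = _
    rw [show ev (MvPolynomial.C x₀ * MvPolynomial.X 0 - MvPolynomial.X 2) x y z =
      ev (MvPolynomial.C x₀ * MvPolynomial.X 0) x y z - ev (MvPolynomial.X 2) x y z from
        map_sub _ _ _, ev_mul, ev_C, ev_X, ev_X]
    rfl
  have h1 : ev ((lin x₀).fwd 1) x y z = y := ev_X 1 x y z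
  have h2 : ev ((lin x₀).fwd 2) x y z = x := ev_X 0 x y z
  rw [ev_aeval, h0, h1, h2]

/-- the case of a tangent ruling at infinity -/
theorem cone6_core [IsAlgClosed K] (h2 : (2 : K) ≠ 0) (hG : GOps K G)
    (F : MvPolynomial (Fin 3) K) (hF : IsWeightedHomogeneous wt F 6) (hα : al F ≠ 0)
    (hd : disc3 (al F) ((ap F 2).coeff 2) ((ap F 1).coeff 4) ((ap F 0).coeff 6) = 0)
    (h : ∀ τ : Chg K, ¬ NoX (MvPolynomial.aeval τ.fwd F)) : (CW F).Mem G := by
  obtain ⟨y₀, β, hy⟩ := double_root _ _ _ _ hα hd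
  have d2 : (ap F 2).natDegree ≤ 2 := ap_deg F 2 (by norm_num)
  have d4 : (ap F 1).natDegree ≤ 4 := ap_deg F 1 (by norm_num)
  have d6 : (ap F 0).natDegree ≤ 6 := ap_deg F 0 (by norm_num)
  have htop : (BC (top (al F) (ap F 2) (ap F 1) (ap F 0))).Mem G := by
    have e : top (al F) (ap F 2) (ap F 1) (ap F 0) = (X - C y₀) ^ 2 * (C (al F) * X + C β) := hy
    rw [e]
    refine BC.sq_mul hG _ (X_sub_C_ne_zero y₀) (BC.deg_two hG _ ?_)
    exact (natDegree_linear_le).trans one_le_two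
  refine mem_CW hG F hF ?_ htop
  exact Pool.Agent.Helper71.CT.cone_main K G h2 hG _ _ _ _ d2 d4 d6 htop (not_cyl F hF hα h)

/-- **(1)** double covers of the weighted plane -/
theorem cone6_mem [IsAlgClosed K] (h2 : (2 : K) ≠ 0) (hG : GOps K G) (F : MvPolynomial (Fin 3) K)
    (hF : IsWeightedHomogeneous wt F 6)
    (h : (al F ≠ 0 ∧ ∀ τ : Chg K, ¬ NoX (MvPolynomial.aeval τ.fwd F)) ∨ (al F = 0 ∧ ¬ NoY F)) :
    (CW F).Mem G := by
  have d2 : (ap F 2).natDegree ≤ 2 := ap_deg F 2 (by norm_num)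
  have d4 : (ap F 1).natDegree ≤ 4 := ap_deg F 1 (by norm_num)
  have d6 : (ap F 0).natDegree ≤ 6 := ap_deg F 0 (by norm_num)
  rcases h with ⟨hα, h⟩ | ⟨hα, h⟩
  · rcases exists_ruling (al F) (ap F 2) (ap F 1) (ap F 0) d2 d4 d6 with ⟨x₀, hx⟩ | hd
    · have hF' := wh_aeval hF (lin x₀).hfwd
      set F' := MvPolynomial.aeval (lin x₀).fwd F with hFF
      have e0 : al F' = al F := by
        have k1 := ev_z0 hF' (0 : K) 1
        have k2 := ev_z0 hF (0 : K) 1
        rw [hFF, ev_lin] at k1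
        rw [mul_zero, sub_zero, k2] at k1
        simp only [Algebra.algebraMap_self, RingHom.id_apply] at k1
        linear_combination -k1
      have e1 : (C (al F') * X ^ 3 + C ((ap F' 2).coeff 2) * X ^ 2 + C ((ap F' 1).coeff 4) * X +
          C ((ap F' 0).coeff 6) : K[X]) = C (al F) * X ^ 3 + C ((ap F 2).eval x₀) * X ^ 2 +
          C ((ap F 1).eval x₀) * X + C ((ap F 0).eval x₀) := by
        have k1 := ev_z0 hF' (1 : K[X]) X
        rw [hFF, ev_lin, mul_one, sub_zero, ev_one hF, ← hFF] at k1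
        simp only [Dv, Polynomial.algebraMap_eq, aeval_CX] at k1
        linear_combination -k1
      have c2 := congrArg (fun g => coeff g 2) e1
      have c1 := congrArg (fun g => coeff g 1) e1
      have c0 := congrArg (fun g => coeff g 0) e1
      simp [coeff_X, coeff_C] at c2 c1 c0
      refine Mem.of_iso (CWi F (lin x₀)) (cone6_core h2 hG F' hF' (by rw [e0]; exact hα) ?_ ?_)
      · rw [e0, c2, c1, c0]
        exact hx
      · intro τ hτ
        apply h (comp (lin x₀) τ)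
        rw [comp_fwd]
        exact hτ
    · exact cone6_core h2 hG F hF hα hd h
  · have h4 : ap F 2 ≠ 0 ∨ ap F 1 ≠ 0 := by
      by_contra hcon
      push Not at hcon
      apply h
      refine wh_ext (wh_noY hF) hF fun R _ _ x y => ?_
      rw [ev_noY, ev_one hF, ev_one hF, hcon.1, hcon.2, hα]
      simp only [Dv, map_zero]
      ring
    refine mem_CW hG F hF ?_ ?_
    · rw [hα]
      exact Pool.Agent.Helper49.CT.cone_zero hG h2 _ _ _ d2 h4
    · rw [hα]
      refine BC.deg_two hG _ ?_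
      have e : top 0 (ap F 2) (ap F 1) (ap F 0) = C ((ap F 2).coeff 2) * X ^ 2 +
          C ((ap F 1).coeff 4) * X + C ((ap F 0).coeff 6) := by
        rw [top, C_0]
        ring
      rw [e]
      exact natDegree_quadratic_le

end Pool.Agent.Helper49.CP
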