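import Pool.Agent.Helper49.CP.OpsK
import Pool.Agent.Helper49.CP.Mem

/-!
# The double cover of the curve `E = 0`
-/

set_option autoImplicit false

namespace Pool.Agent.Helper49.CP

open Pool.Agent.Helper29.CQ Pool.Agent.Helper65.CC Pool.Agent.Helper87.CC
  Pool.Agent.Helper65.CC.KFn Pool.Agent.Helper49.QP
open Pool.Agent.Helper9.QP (Cst)
open Pool.Agent.Helper71.CP Pool.Agent.Helper71.PN
open MvPolynomial (IsWeightedHomogeneous)

variable {k K : Type} [Field k] [Field K] [Algebra k K]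
  {G : ∀ (R : Type) [CommRing R] [Algebra K R], Prop}

/-- actions on closed subfunctors -/
def scCls {F : KFn k} (s : Sc F) (u : Coord F) (n : ℕ)
    (h : ∀ {R : Type} [CommRing R] [Algebra k R] (t : Rˣ) (x : F.obj R),
      u.val (s.sc t x) = (t : R) ^ n * u.val x) : Sc (F.cls u) where
  sc t x := ⟨s.sc t x.1, by
    have h1 : u.val x.1 = 0 := x.2
    change u.val (s.sc t x.1) = 0
    rw [h, h1, mul_zero]⟩
  one x := Subtype.ext (s.one x.1)
  mul t t' x := Subtype.ext (s.mul t t' x.1)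
  nat f t x := Subtype.ext (s.nat f t x.1)

theorem ev_rs (F : MvPolynomial (Fin 3) k) {R : Type} [CommRing R] [Algebra K R] (x y z : R) :
    ev (MvPolynomial.map (algebraMap k K) F) x y z = @ev k _ F R _ (rs k K R) x y z := by
  let _ := rs k K R
  have _ : IsScalarTower k K R := IsScalarTower.of_algebraMap_eq fun _ => rfl
  exact MvPolynomial.aeval_map_algebraMap K ![x, y, z] F

/-- the cone over the curve `E = 0`, double cover -/
noncomputable def CE (F E : MvPolynomial (Fin 3) k) : KFn k := (CW F).cls (CW.c F E)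

instance (F E : MvPolynomial (Fin 3) k) : Rp (CE F E) := by
  unfold CE
  infer_instance

/-- the scaling -/
noncomputable def CEs (F E : MvPolynomial (Fin 3) k) (hF : IsWeightedHomogeneous wt F 6)
    (hE : IsWeightedHomogeneous wt E 3) : Sc (CE F E) :=
  scCls (CWs F hF) (CW.c F E) 3 fun {R} _ _ t x => ev_scale hE (t : R) x.1.1 x.1.2.1 x.1.2.2.1

/-- the coordinate `z` -/
noncomputable def CEz (F E : MvPolynomial (Fin 3) k) : Coord (CE F E) :=
  ⟨fun x => x.1.1.2.2.1, fun _ _ => rfl⟩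

/-- the coordinate `x` -/
noncomputable def CEx (F E : MvPolynomial (Fin 3) k) : Coord ((CE F E).cls (CEz F E)) :=
  ⟨fun x => x.1.1.1.1, fun _ _ => rfl⟩

/-- the polynomial at `z = 1` -/
noncomputable def e1 (E : MvPolynomial (Fin 3) k) : MvPolynomial (Fin 2) k :=
  MvPolynomial.aeval ![MvPolynomial.X 0, MvPolynomial.X 1, 1] E

theorem aeval_e1 (E : MvPolynomial (Fin 3) k) {R : Type} [CommRing R] [Algebra k R] (x y : R) :
    MvPolynomial.aeval ![x, y] (e1 E) = ev E x y 1 := by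
  have h1 : (MvPolynomial.aeval ![x, y] : MvPolynomial (Fin 2) k →ₐ[k] R).comp
      (MvPolynomial.aeval ![MvPolynomial.X 0, MvPolynomial.X 1, 1]) =
      MvPolynomial.aeval ![x, y, 1] := by
    apply MvPolynomial.algHom_ext
    intro i
    rw [AlgHom.comp_apply, MvPolynomial.aeval_X, MvPolynomial.aeval_X]
    fin_cases i
    · exact MvPolynomial.aeval_X _ _
    · exact MvPolynomial.aeval_X _ _
    · exact map_one _
  exact DFunLike.congr_fun h1 E

theorem e1_ne {E : MvPolynomial (Fin 3) k} {d : ℕ} (hE : IsWeightedHomogeneous wt E d)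
    (h0 : E ≠ 0) : e1 E ≠ 0 := by
  intro h
  refine h0 (wh_zero hE fun R _ _ x y => ?_)
  rw [← aeval_e1, h, map_zero]

/-- the branch function on the plane curve -/
noncomputable def dA (F E : MvPolynomial (Fin 3) k) : Coord (PC (e1 E)) :=
  ⟨fun x => ev F x.1.1 x.1.2 1, fun f x => by
    rw [ev_map, map_one]
    rfl⟩

/-- the slice `z = 1` -/
noncomputable def isoA (F E : MvPolynomial (Fin 3) k) :
    Iso ((CE F E).cls (subC (CEz F E) 1)) (dbl (PC (e1 E)) (dA F E)) where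
  hom {R} _ _ x := ⟨(⟨(x.1.1.1.1, x.1.1.1.2.1), by
      have h : ev E x.1.1.1.1 x.1.1.1.2.1 x.1.1.1.2.2.1 = 0 := x.1.2
      have h1 : x.1.1.1.2.2.1 - algebraMap k R 1 = 0 := x.2
      rw [map_one, sub_eq_zero] at h1
      rw [h1] at h
      exact (aeval_e1 E _ _).trans h⟩, x.1.1.1.2.2.2), by
    have h : x.1.1.1.2.2.2 ^ 2 - ev F x.1.1.1.1 x.1.1.1.2.1 x.1.1.1.2.2.1 = 0 := x.1.1.2
    have h1 : x.1.1.1.2.2.1 - algebraMap k R 1 = 0 := x.2
    rw [map_one, sub_eq_zero] at h1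
    rw [h1] at h
    exact h⟩
  inv {R} _ _ y := ⟨⟨⟨(y.1.1.1.1, y.1.1.1.2, 1, y.1.2), y.2⟩, by
      have h : MvPolynomial.aeval ![y.1.1.1.1, y.1.1.1.2] (e1 E) = 0 := y.1.1.2
      rw [aeval_e1] at h
      exact h⟩, by
    change 1 - algebraMap k R 1 = 0
    rw [map_one, sub_self]⟩
  inv_hom {R} _ _ x := by
    have h1 : x.1.1.1.2.2.1 - algebraMap k R 1 = 0 := x.2
    rw [map_one, sub_eq_zero] at h1
    exact Subtype.ext (Subtype.ext (Subtype.ext (Prod.ext rfl (Prod.ext rfl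
      (Prod.ext h1.symm rfl)))))
  hom_inv {R} _ _ y := rfl
  nat {R S} _ _ _ _ f x := rfl

/-- values on the line -/
noncomputable def lv (F : MvPolynomial (Fin 3) k) (c : k) : Coord (A1 k) :=
  ⟨fun {R} _ _ y => ev F (algebraMap k R c) (show R from y) 0, fun {R S} _ _ _ _ f y => by
    refine (ev_map F f (algebraMap k R c) (show R from y) 0).trans ?_
    rw [map_zero, AlgHom.commutes]
    rfl⟩

/-- the slices with `z = 0` -/
theorem D1_line (F E : MvPolynomial (Fin 3) k) (c : k) :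
    D1 (dbl ((A1 k).cls (lv E c)) (resC _ (lv F c))) := by
  have h : Rp (A1 k) := Rp.iso isoA1
  exact (D1.line1.cls (lv E c)).dbl _

/-- the slice `z = 0`, `x = c` -/
noncomputable def isoB (F E : MvPolynomial (Fin 3) k) :
    Iso (((CE F E).cls (CEz F E)).cls (subC (CEx F E) 1))
      (dbl ((A1 k).cls (lv E 1)) (resC _ (lv F 1))) where
  hom {R} _ _ x := ⟨(⟨x.1.1.1.1.2.1, by
      have h : ev E x.1.1.1.1.1 x.1.1.1.1.2.1 x.1.1.1.1.2.2.1 = 0 := x.1.1.2
      have h1 : x.1.1.1.1.2.2.1 = 0 := x.1.2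
      have h2 : x.1.1.1.1.1 - algebraMap k R 1 = 0 := x.2
      rw [h1, sub_eq_zero.1 h2] at h
      exact h⟩, x.1.1.1.1.2.2.2), by
    have h : x.1.1.1.1.2.2.2 ^ 2 - ev F x.1.1.1.1.1 x.1.1.1.1.2.1 x.1.1.1.1.2.2.1 = 0 :=
      x.1.1.1.2
    have h1 : x.1.1.1.1.2.2.1 = 0 := x.1.2
    have h2 : x.1.1.1.1.1 - algebraMap k R 1 = 0 := x.2
    rw [h1, sub_eq_zero.1 h2] at h
    exact h⟩
  inv {R} _ _ y := ⟨⟨⟨⟨(algebraMap k R 1, y.1.1.1, 0, y.1.2), y.2⟩, y.1.1.2⟩, rfl⟩, sub_self _⟩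
  inv_hom {R} _ _ x := by
    have h1 : x.1.1.1.1.2.2.1 = 0 := x.1.2
    have h2 : x.1.1.1.1.1 - algebraMap k R 1 = 0 := x.2
    exact Subtype.ext (Subtype.ext (Subtype.ext (Subtype.ext (Prod.ext (sub_eq_zero.1 h2).symm
      (Prod.ext rfl (Prod.ext h1.symm rfl))))))
  hom_inv {R} _ _ y := rfl
  nat {R S} _ _ _ _ f x := rfl

/-- the slice `z = 0`, `x = 0` -/
noncomputable def isoC (F E : MvPolynomial (Fin 3) k) :
    Iso (((CE F E).cls (CEz F E)).cls (CEx F E))
      (dbl ((A1 k).cls (lv E 0)) (resC _ (lv F 0))) where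
  hom {R} _ _ x := ⟨(⟨x.1.1.1.1.2.1, by
      have h : ev E x.1.1.1.1.1 x.1.1.1.1.2.1 x.1.1.1.1.2.2.1 = 0 := x.1.1.2
      have h1 : x.1.1.1.1.2.2.1 = 0 := x.1.2
      have h2 : x.1.1.1.1.1 = 0 := x.2
      rw [h1, h2] at h
      change ev E (algebraMap k R 0) x.1.1.1.1.2.1 0 = 0
      rw [map_zero]
      exact h⟩, x.1.1.1.1.2.2.2), by
    have h : x.1.1.1.1.2.2.2 ^ 2 - ev F x.1.1.1.1.1 x.1.1.1.1.2.1 x.1.1.1.1.2.2.1 = 0 :=
      x.1.1.1.2
    have h1 : x.1.1.1.1.2.2.1 = 0 := x.1.2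
    have h2 : x.1.1.1.1.1 = 0 := x.2
    rw [h1, h2] at h
    change x.1.1.1.1.2.2.2 ^ 2 - ev F (algebraMap k R 0) x.1.1.1.1.2.1 0 = 0
    rw [map_zero]
    exact h⟩
  inv {R} _ _ y := ⟨⟨⟨⟨(algebraMap k R 0, y.1.1.1, 0, y.1.2), y.2⟩, y.1.1.2⟩, rfl⟩, map_zero _⟩
  inv_hom {R} _ _ x := by
    have h1 : x.1.1.1.1.2.2.1 = 0 := x.1.2
    have h2 : x.1.1.1.1.1 = 0 := x.2
    exact Subtype.ext (Subtype.ext (Subtype.ext (Subtype.ext (Prod.ext
      ((map_zero (algebraMap k R)).trans h2.symm) (Prod.ext rfl (Prod.ext h1.symm rfl))))))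
  hom_inv {R} _ _ y := rfl
  nat {R S} _ _ _ _ f x := rfl

theorem mem_CE [Finite k] (hG : KOps K G) (hW : Cst k G) (F E : MvPolynomial (Fin 3) k)
    (hF : IsWeightedHomogeneous wt F 6) (hE : IsWeightedHomogeneous wt E 3) (hE0 : E ≠ 0) :
    (CE F E).Mem (fun R _ _ => Gk k G R) := by
  have hO := ops_k (k := k) hG
  have hR : Rp (PC (e1 E)) := by
    obtain ⟨a, ha⟩ := rep_PC (e1 E)
    exact ⟨_, _, _, a, ft_quot inferInstance _, ha⟩
  refine (CEs F E hF hE).mem hO (CEz F E) (fun _ _ => rfl)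
    (Mem.of_iso (isoA F E) (mem_k_D1 hW ((D1.curve (e1_ne hE hE0)).dbl _))) ?_
  refine (scCls (CEs F E hF hE) (CEz F E) 1 fun {R} _ _ t x => by
    rw [pow_one]
    rfl).mem hO (CEx F E) (fun _ _ => rfl)
    (Mem.of_iso (isoB F E) (mem_k_D1 hW (D1_line F E 1)))
    (Mem.of_iso (isoC F E) (mem_k_D1 hW (D1_line F E 0)))

/-- **(3)** the double cover of the curve `E = 0` is constant -/
theorem conic6 [IsAlgClosed K] (hG : GOps K G) [Finite k] (hW : Cst k G)
    (F E : MvPolynomial (Fin 3) k) (hF : IsWeightedHomogeneous wt F 6)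
    (hE : IsWeightedHomogeneous wt E 3) (hE0 : E ≠ 0) (a b : K) (hb : b ≠ 0) :
    ((CW (Qp (MvPolynomial.map (algebraMap k K) F) (MvPolynomial.map (algebraMap k K) E) a b)).cls
      (CW.c _ (MvPolynomial.map (algebraMap k K) E))).Mem G := by
  obtain ⟨s, hs⟩ := IsAlgClosed.exists_pow_nat_eq b (n := 2) two_pos
  have hs0 : s ≠ 0 := by
    rintro rfl
    apply hb
    rw [← hs]
    ring
  have h1 : ∀ (R : Type) [CommRing R] [Algebra K R],
      algebraMap K R s * algebraMap K R s⁻¹ = 1 := fun R _ _ => by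
    rw [← map_mul, mul_inv_cancel₀ hs0, map_one]
  have h2 : ∀ (R : Type) [CommRing R] [Algebra K R],
      algebraMap K R b = algebraMap K R s ^ 2 := fun R _ _ => by rw [← map_pow, hs]
  refine Mem.of_iso ?_ (mem_of_k hG.toKOps (mem_CE hG.toKOps hW F E hF hE hE0))
  exact
    { hom := fun {R} _ _ x => ⟨⟨(x.1.1.1, x.1.1.2.1, x.1.1.2.2.1,
        algebraMap K R s⁻¹ * x.1.1.2.2.2), by
          have k1 : x.1.1.2.2.2 ^ 2 - ev (Qp (MvPolynomial.map (algebraMap k K) F)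
            (MvPolynomial.map (algebraMap k K) E) a b) x.1.1.1 x.1.1.2.1 x.1.1.2.2.1 = 0 := x.1.2
          have k2 : ev (MvPolynomial.map (algebraMap k K) E) x.1.1.1 x.1.1.2.1 x.1.1.2.2.1 = 0 :=
            x.2
          rw [ev_Qp, k2, h2] at k1
          change (algebraMap K R s⁻¹ * x.1.1.2.2.2) ^ 2 -
            @ev k _ F R _ (rs k K R) x.1.1.1 x.1.1.2.1 x.1.1.2.2.1 = 0
          rw [← ev_rs]
          have k3 := h1 R
          linear_combination (algebraMap K R s⁻¹) ^ 2 * k1 +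
            ev (MvPolynomial.map (algebraMap k K) F) x.1.1.1 x.1.1.2.1 x.1.1.2.2.1 *
              (algebraMap K R s * algebraMap K R s⁻¹ + 1) * k3⟩, by
          have k2 : ev (MvPolynomial.map (algebraMap k K) E) x.1.1.1 x.1.1.2.1 x.1.1.2.2.1 = 0 :=
            x.2
          rw [ev_rs] at k2
          exact k2⟩
      inv := fun {R} _ _ y => ⟨⟨(y.1.1.1, y.1.1.2.1, y.1.1.2.2.1,
        algebraMap K R s * y.1.1.2.2.2), by
          have k1 : y.1.1.2.2.2 ^ 2 - @ev k _ F R _ (rs k K R) y.1.1.1 y.1.1.2.1 y.1.1.2.2.1 = 0 :=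
            y.1.2
          have k2 : @ev k _ E R _ (rs k K R) y.1.1.1 y.1.1.2.1 y.1.1.2.2.1 = 0 := y.2
          rw [← ev_rs] at k1 k2
          change (algebraMap K R s * y.1.1.2.2.2) ^ 2 - ev (Qp (MvPolynomial.map (algebraMap k K) F)
            (MvPolynomial.map (algebraMap k K) E) a b) y.1.1.1 y.1.1.2.1 y.1.1.2.2.1 = 0
          rw [ev_Qp, k2, h2]
          linear_combination (algebraMap K R s) ^ 2 * k1⟩, by
          have k2 : @ev k _ E R _ (rs k K R) y.1.1.1 y.1.1.2.1 y.1.1.2.2.1 = 0 := y.2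
          rw [← ev_rs] at k2
          exact k2⟩
      inv_hom := fun {R} _ _ x => Subtype.ext (Subtype.ext (Prod.ext rfl (Prod.ext rfl
        (Prod.ext rfl (by
          change algebraMap K R s * (algebraMap K R s⁻¹ * x.1.1.2.2.2) = x.1.1.2.2.2
          rw [← mul_assoc, h1, one_mul])))))
      hom_inv := fun {R} _ _ y => Subtype.ext (Subtype.ext (Prod.ext rfl (Prod.ext rfl
        (Prod.ext rfl (by
          change algebraMap K R s⁻¹ * (algebraMap K R s * y.1.1.2.2.2) = y.1.1.2.2.2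
          rw [← mul_assoc, mul_comm (algebraMap K R s⁻¹), h1, one_mul])))))
      nat := fun {R S} _ _ _ _ f x => Subtype.ext (Subtype.ext (Prod.ext rfl (Prod.ext rfl
        (Prod.ext rfl (by
          change f (algebraMap K R s⁻¹ * x.1.1.2.2.2) = algebraMap K S s⁻¹ * f x.1.1.2.2.2
          rw [map_mul, AlgHom.commutes]))))) }

end Pool.Agent.Helper49.CP
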