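import Pool.Agent.Helper49.CP.Wh
import Pool.Agent.Helper49.CT.ConeMem

/-!
# A ruling with a double root
-/

set_option autoImplicit false

namespace Pool.Agent.Helper49.CP

open Pool.Agent.Helper29.CQ Pool.Agent.Helper65.CC Pool.Agent.Helper87.CC
  Pool.Agent.Helper65.CC.KFn
open Polynomial

variable {K : Type} [Field K]

/-- the discriminant of a cubic polynomial -/
def disc3 {R : Type} [CommRing R] (α b c e : R) : R :=
  b ^ 2 * c ^ 2 - 4 * α * c ^ 3 - 4 * b ^ 3 * e + 18 * α * b * c * e - 27 * α ^ 2 * e ^ 2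

theorem exists_roots [IsAlgClosed K] (α b c e : K) (hα : α ≠ 0) : ∃ y₁ y₂ y₃ : K,
    b = -α * (y₁ + y₂ + y₃) ∧ c = α * (y₁ * y₂ + y₁ * y₃ + y₂ * y₃) ∧ e = -α * (y₁ * y₂ * y₃) := by
  obtain ⟨y₁, h1⟩ := IsAlgClosed.exists_root (C α * X ^ 3 + C b * X ^ 2 + C c * X + C e)
    (by rw [degree_cubic hα]; exact three_ne_zero)
  simp only [IsRoot.def, eval_add, eval_mul, eval_pow, eval_X, eval_C] at h1
  obtain ⟨y₂, h2⟩ := IsAlgClosed.exists_root (C α * X ^ 2 + C (b + α * y₁) * X +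
    C (c + (b + α * y₁) * y₁)) (by rw [degree_quadratic hα]; exact two_ne_zero)
  simp only [IsRoot.def, eval_add, eval_mul, eval_pow, eval_X, eval_C] at h2
  have h3 : α * (-(b + α * y₁) / α - y₂) = -(b + α * y₁) - α * y₂ := by
    field_simp
  refine ⟨y₁, y₂, -(b + α * y₁) / α - y₂, ?_, ?_, ?_⟩
  · linear_combination h3
  · linear_combination (-y₁ - y₂) * h3 + h2
  · linear_combination (y₁ * y₂) * h3 + h1 - y₁ * h2

theorem double_root [IsAlgClosed K] (α b c e : K) (hα : α ≠ 0) (h : disc3 α b c e = 0) :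
    ∃ y₀ β : K, (C α * X ^ 3 + C b * X ^ 2 + C c * X + C e : K[X]) =
      (X - C y₀) ^ 2 * (C α * X + C β) := by
  obtain ⟨y₁, y₂, y₃, hb, hc, he⟩ := exists_roots α b c e hα
  have h1 : disc3 α b c e = α ^ 4 * (y₁ - y₂) ^ 2 * (y₁ - y₃) ^ 2 * (y₂ - y₃) ^ 2 := by
    rw [disc3, hb, hc, he]
    ring
  rw [h] at h1
  have h2 : (y₁ - y₂) = 0 ∨ (y₁ - y₃) = 0 ∨ (y₂ - y₃) = 0 := by
    by_contra hcon
    push Not at hcon
    exact mul_ne_zero (mul_ne_zero (mul_ne_zero (pow_ne_zero 4 hα) (pow_ne_zero 2 hcon.1))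
      (pow_ne_zero 2 hcon.2.1)) (pow_ne_zero 2 hcon.2.2) h1.symm
  rcases h2 with h2 | h2 | h2
  · refine ⟨y₁, -α * y₃, ?_⟩
    have h3 : y₂ = y₁ := by linear_combination -h2
    rw [hb, hc, he, h3]
    simp only [C_mul, C_neg, C_add]
    ring
  · refine ⟨y₁, -α * y₂, ?_⟩
    have h3 : y₃ = y₁ := by linear_combination -h2
    rw [hb, hc, he, h3]
    simp only [C_mul, C_neg, C_add]
    ring
  · refine ⟨y₂, -α * y₁, ?_⟩
    have h3 : y₃ = y₂ := by linear_combination -h2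
    rw [hb, hc, he, h3]
    simp only [C_mul, C_neg, C_add]
    ring

theorem disc_top (α : K) (a₂ a₄ a₆ : K[X]) (d2 : a₂.natDegree ≤ 2) (d4 : a₄.natDegree ≤ 4)
    (d6 : a₆.natDegree ≤ 6) : (disc3 (C α) a₂ a₄ a₆).coeff 12 =
      disc3 α (a₂.coeff 2) (a₄.coeff 4) (a₆.coeff 6) := by
  have p2 : ∀ m, (a₂ ^ m).natDegree ≤ m * 2 := fun m =>
    natDegree_pow_le.trans (Nat.mul_le_mul_left m d2)
  have p4 : ∀ m, (a₄ ^ m).natDegree ≤ m * 4 := fun m =>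
    natDegree_pow_le.trans (Nat.mul_le_mul_left m d4)
  have c2 : ∀ m, (a₂ ^ m).coeff (m * 2) = a₂.coeff 2 ^ m := fun m => coeff_pow_of_natDegree_le d2
  have c4 : ∀ m, (a₄ ^ m).coeff (m * 4) = a₄.coeff 4 ^ m := fun m => coeff_pow_of_natDegree_le d4
  have c6 : ∀ m, (a₆ ^ m).coeff (m * 6) = a₆.coeff 6 ^ m := fun m => coeff_pow_of_natDegree_le d6
  have t1 : (a₂ ^ 2 * a₄ ^ 2).coeff 12 = a₂.coeff 2 ^ 2 * a₄.coeff 4 ^ 2 := by
    have := coeff_mul_add_eq_of_natDegree_le (p2 2) (p4 2)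
    rw [c2, c4] at this
    exact this
  have t2 : (a₄ ^ 3).coeff 12 = a₄.coeff 4 ^ 3 := c4 3
  have t3 : (a₂ ^ 3 * a₆).coeff 12 = a₂.coeff 2 ^ 3 * a₆.coeff 6 := by
    have := coeff_mul_add_eq_of_natDegree_le (p2 3) d6
    rw [c2] at this
    exact this
  have t4 : (a₂ * a₄ * a₆).coeff 12 = a₂.coeff 2 * a₄.coeff 4 * a₆.coeff 6 := by
    have h1 := coeff_mul_add_eq_of_natDegree_le d2 d4
    have h2 := coeff_mul_add_eq_of_natDegree_le (natDegree_mul_le_of_le d2 d4) d6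
    rw [h1] at h2
    exact h2
  have t5 : (a₆ ^ 2).coeff 12 = a₆.coeff 6 ^ 2 := c6 2
  have e : disc3 (C α) a₂ a₄ a₆ = a₂ ^ 2 * a₄ ^ 2 - C (4 * α) * a₄ ^ 3 - C 4 * (a₂ ^ 3 * a₆) +
      C (18 * α) * (a₂ * a₄ * a₆) - C (27 * α ^ 2) * a₆ ^ 2 := by
    simp only [disc3, C_mul, C_pow, map_ofNat]
    ring
  rw [e]
  simp only [coeff_add, coeff_sub, coeff_C_mul, t1, t2, t3, t4, t5, disc3]
  ring

/-- some member of the ruling is tangent to the branch curve -/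
theorem exists_ruling [IsAlgClosed K] (α : K) (a₂ a₄ a₆ : K[X]) (d2 : a₂.natDegree ≤ 2)
    (d4 : a₄.natDegree ≤ 4) (d6 : a₆.natDegree ≤ 6) :
    (∃ x₀ : K, disc3 α (a₂.eval x₀) (a₄.eval x₀) (a₆.eval x₀) = 0) ∨
      disc3 α (a₂.coeff 2) (a₄.coeff 4) (a₆.coeff 6) = 0 := by
  have hev : ∀ x, (disc3 (C α) a₂ a₄ a₆).eval x =
      disc3 α (a₂.eval x) (a₄.eval x) (a₆.eval x) := by
    intro x
    simp only [disc3, eval_add, eval_sub, eval_mul, eval_pow, eval_C, eval_ofNat]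
  by_cases h : (disc3 (C α) a₂ a₄ a₆).degree = 0
  · right
    rw [← disc_top α a₂ a₄ a₆ d2 d4 d6, eq_C_of_degree_eq_zero h, coeff_C]
    norm_num
  · left
    obtain ⟨x, hx⟩ := IsAlgClosed.exists_root _ h
    exact ⟨x, by rw [← hev]; exact hx⟩

end Pool.Agent.Helper49.CP
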