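import Pool.Agent.Helper71.CP.Defs
import Pool.Agent.Helper71.CT.Defs

/-!
# Weighted homogeneous polynomials: expansions, changes of coordinates
-/

set_option autoImplicit false

namespace Pool.Agent.Helper49.CP

open Pool.Agent.Helper29.CQ Pool.Agent.Helper65.CC Pool.Agent.Helper87.CC
  Pool.Agent.Helper65.CC.KFn
open Pool.Agent.Helper71.CP
open MvPolynomial (X C aeval IsWeightedHomogeneous monomial)

variable {K : Type} [Field K]

/-- substitutions of weighted homogeneous polynomials of the right weights -/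
theorem wh_aeval {F : MvPolynomial (Fin 3) K} {d : ℕ} (hF : IsWeightedHomogeneous wt F d)
    {t : Fin 3 → MvPolynomial (Fin 3) K} (ht : ∀ i, IsWeightedHomogeneous wt (t i) (wt i)) :
    IsWeightedHomogeneous wt (aeval t F) d := by
  rw [MvPolynomial.aeval_def, MvPolynomial.eval₂_eq']
  refine IsWeightedHomogeneous.sum _ _ _ fun m hm => ?_
  have h1 := hF (MvPolynomial.mem_support_iff.1 hm)
  rw [Finsupp.weight_apply, Finsupp.sum_fintype _ _ (fun i => by simp)] at h1
  rw [MvPolynomial.algebraMap_eq, ← h1]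
  refine IsWeightedHomogeneous.C_mul ?_ _
  exact IsWeightedHomogeneous.prod _ _ _ fun i _ => by
    have h2 := (ht i).pow (m i)
    exact h2

/-- a weighted homogeneous polynomial is determined by its values at `z = 1` -/
theorem wh_zero {H : MvPolynomial (Fin 3) K} {d : ℕ} (hH : IsWeightedHomogeneous wt H d)
    (h : ∀ (R : Type) [CommRing R] [Algebra K R] (x y : R), ev H x y 1 = 0) : H = 0 := by
  let L := FractionRing (MvPolynomial (Fin 3) K)
  let ι : MvPolynomial (Fin 3) K →ₐ[K] L := IsScalarTower.toAlgHom K _ L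
  have hι : Function.Injective ι := IsFractionRing.injective (MvPolynomial (Fin 3) K) L
  have hz : ι (X 2) ≠ 0 := by
    intro h0
    exact MvPolynomial.X_ne_zero (R := K) (2 : Fin 3) (hι (h0.trans (map_zero ι).symm))
  apply hι
  rw [map_zero]
  have h1 : ι H = ev H (ι (X 0)) (ι (X 1)) (ι (X 2)) := by
    rw [← ev_map]
    congr 1
    have h2 : (aeval ![X 0, X 1, X 2] : MvPolynomial (Fin 3) K →ₐ[K] MvPolynomial (Fin 3) K) =
        AlgHom.id K _ := by
      apply MvPolynomial.algHom_ext
      intro i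
      rw [MvPolynomial.aeval_X]
      fin_cases i <;> rfl
    exact (DFunLike.congr_fun h2 H).symm
  have h3 := ev_scale hH (ι (X 2)) (ι (X 0) / ι (X 2)) (ι (X 1) / ι (X 2) ^ 2) 1
  rw [h, mul_zero, mul_div_cancel₀ _ hz, mul_div_cancel₀ _ (pow_ne_zero 2 hz), mul_one] at h3
  rw [h1, h3]

theorem wh_ext {H H' : MvPolynomial (Fin 3) K} {d : ℕ} (hH : IsWeightedHomogeneous wt H d)
    (hH' : IsWeightedHomogeneous wt H' d)
    (h : ∀ (R : Type) [CommRing R] [Algebra K R] (x y : R), ev H x y 1 = ev H' x y 1) :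
    H = H' := by
  refine sub_eq_zero.1 (wh_zero (hH.sub hH') fun R _ _ x y => ?_)
  have h1 : ev (H - H') x y 1 = ev H x y 1 - ev H' x y 1 := map_sub _ _ _
  rw [h1, h, sub_self]

theorem aeval_comp_fun (t s : Fin 3 → MvPolynomial (Fin 3) K) (F : MvPolynomial (Fin 3) K) :
    aeval (fun i => aeval s (t i)) F = aeval s (aeval t F) := by
  have h1 : (aeval (fun i => aeval s (t i)) : MvPolynomial (Fin 3) K →ₐ[K] _) =
      (aeval s).comp (aeval t) := by
    apply MvPolynomial.algHom_ext
    intro i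
    rw [AlgHom.comp_apply, MvPolynomial.aeval_X, MvPolynomial.aeval_X]
  exact DFunLike.congr_fun h1 F

/-- the composition of changes of coordinates -/
noncomputable def comp (τ σ : Chg K) : Chg K where
  fwd i := aeval σ.fwd (τ.fwd i)
  bwd i := aeval τ.bwd (σ.bwd i)
  hfwd i := wh_aeval (τ.hfwd i) σ.hfwd
  hbwd i := wh_aeval (σ.hbwd i) τ.hbwd
  fwd_bwd i := by rw [aeval_comp_fun, τ.bf, σ.fwd_bwd]
  bwd_fwd i := by rw [aeval_comp_fun, σ.fb, τ.bwd_fwd]

theorem comp_fwd (τ σ : Chg K) (F : MvPolynomial (Fin 3) K) :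
    aeval (comp τ σ).fwd F = aeval σ.fwd (aeval τ.fwd F) := aeval_comp_fun _ _ _

/-! ### Expansions -/

/-- the exponents `(i, j, 6 - i - 2 j)` -/
noncomputable def mon (i j : ℕ) : Fin 3 →₀ ℕ := Finsupp.equivFunOnFinite.symm ![i, j, 6 - i - 2 * j]

/-- the coefficients -/
noncomputable def cf (F : MvPolynomial (Fin 3) K) (i j : ℕ) : K := F.coeff (mon i j)

theorem mon_inj {i j i' j' : ℕ} (h : mon i j = mon i' j') : i = i' ∧ j = j' := by
  have h0 := DFunLike.congr_fun h 0
  have h1 := DFunLike.congr_fun h 1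
  exact ⟨h0, h1⟩

theorem F_eq {F : MvPolynomial (Fin 3) K} (hF : IsWeightedHomogeneous wt F 6) :
    F = ∑ j ∈ Finset.range 4, ∑ i ∈ Finset.range (7 - 2 * j), monomial (mon i j) (cf F i j) := by
  classical
  ext m
  rw [MvPolynomial.coeff_sum]
  simp only [MvPolynomial.coeff_sum, MvPolynomial.coeff_monomial]
  by_cases h : F.coeff m = 0
  · rw [h]
    symm
    refine Finset.sum_eq_zero fun j _ => Finset.sum_eq_zero fun i _ => ?_
    by_cases h1 : mon i j = m
    · rw [if_pos h1, cf, h1, h]
    · rw [if_neg h1]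
  · have h1 := hF h
    rw [Finsupp.weight_apply, Finsupp.sum_fintype _ _ (fun i => by simp)] at h1
    simp only [Fin.sum_univ_three, Matrix.cons_val_zero, Matrix.cons_val_one, Matrix.cons_val,
      smul_eq_mul, mul_one] at h1
    have h2 : mon (m 0) (m 1) = m := by
      ext i
      fin_cases i
      · rfl
      · rfl
      · change 6 - m 0 - 2 * m 1 = m 2
        omega
    rw [Finset.sum_eq_single (m 1), Finset.sum_eq_single (m 0), if_pos h2, cf, h2]
    · intro i _ hi
      exact if_neg fun h3 => hi (mon_inj (h3.trans h2.symm)).1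
    · intro h3
      exfalso
      apply h3
      rw [Finset.mem_range]
      omega
    · intro j _ hj
      refine Finset.sum_eq_zero fun i _ => ?_
      exact if_neg fun h3 => hj (mon_inj (h3.trans h2.symm)).2
    · intro h3
      exfalso
      apply h3
      rw [Finset.mem_range]
      omega

theorem ev_mon (i j : ℕ) (c : K) {R : Type} [CommRing R] [Algebra K R] (x y z : R) :
    ev (monomial (mon i j) c) x y z =
      algebraMap K R c * (x ^ i * y ^ j * z ^ (6 - i - 2 * j)) := by
  unfold ev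
  rw [MvPolynomial.aeval_monomial, Finsupp.prod_fintype _ _ (fun i => by simp)]
  simp only [Fin.prod_univ_three]
  rfl

theorem ev_eq {F : MvPolynomial (Fin 3) K} (hF : IsWeightedHomogeneous wt F 6) {R : Type}
    [CommRing R] [Algebra K R] (x y z : R) :
    ev F x y z = ∑ j ∈ Finset.range 4, ∑ i ∈ Finset.range (7 - 2 * j),
      algebraMap K R (cf F i j) * (x ^ i * y ^ j * z ^ (6 - i - 2 * j)) := by
  conv_lhs => rw [F_eq hF]
  unfold ev
  rw [map_sum]
  refine Finset.sum_congr rfl fun j _ => ?_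
  rw [map_sum]
  refine Finset.sum_congr rfl fun i _ => ?_
  exact ev_mon i j _ x y z

/-- the coefficient of `y ^ j` as a polynomial in `x` -/
noncomputable def ap (F : MvPolynomial (Fin 3) K) (j : ℕ) : Polynomial K :=
  ∑ i ∈ Finset.range (7 - 2 * j), Polynomial.C (cf F i j) * Polynomial.X ^ i

theorem ap_coeff (F : MvPolynomial (Fin 3) K) (j n : ℕ) (hn : n < 7 - 2 * j) :
    (ap F j).coeff n = cf F n j := by
  rw [ap, Polynomial.finsetSum_coeff]
  simp only [Polynomial.coeff_C_mul, Polynomial.coeff_X_pow]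
  rw [Finset.sum_eq_single n]
  · rw [if_pos rfl, mul_one]
  · intro i _ hi
    rw [if_neg (Ne.symm hi), mul_zero]
  · intro h
    exact absurd (Finset.mem_range.2 hn) h

theorem ap_deg (F : MvPolynomial (Fin 3) K) (j : ℕ) (hj : j < 4) :
    (ap F j).natDegree ≤ 6 - 2 * j := by
  refine Polynomial.natDegree_sum_le_of_forall_le _ _ fun i hi => ?_
  rw [Finset.mem_range] at hi
  refine (Polynomial.natDegree_C_mul_X_pow_le _ _).trans ?_
  omega

theorem ap_aeval (F : MvPolynomial (Fin 3) K) (j : ℕ) {R : Type} [CommRing R] [Algebra K R]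
    (x : R) : Polynomial.aeval x (ap F j) =
      ∑ i ∈ Finset.range (7 - 2 * j), algebraMap K R (cf F i j) * x ^ i := by
  rw [ap, map_sum]
  refine Finset.sum_congr rfl fun i _ => ?_
  rw [map_mul, map_pow, Polynomial.aeval_C, Polynomial.aeval_X]

theorem al_eq (F : MvPolynomial (Fin 3) K) : al F = cf F 0 3 := by
  have h : mon 0 3 = Finsupp.single 1 3 := by
    ext i
    fin_cases i <;> simp [mon]
  rw [al, cf, h]

theorem ev_one {F : MvPolynomial (Fin 3) K} (hF : IsWeightedHomogeneous wt F 6) {R : Type}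
    [CommRing R] [Algebra K R] (x y : R) :
    ev F x y 1 = Pool.Agent.Helper71.CT.Dv (al F) (ap F 2) (ap F 1) (ap F 0) x y := by
  rw [ev_eq hF, Pool.Agent.Helper71.CT.Dv, al_eq, ap_aeval, ap_aeval, ap_aeval]
  simp only [one_pow, mul_one]
  simp only [Finset.sum_range_succ, Finset.sum_range_zero]
  ring

theorem ev_z0 {F : MvPolynomial (Fin 3) K} (hF : IsWeightedHomogeneous wt F 6) {R : Type}
    [CommRing R] [Algebra K R] (x y : R) :
    ev F x y 0 = algebraMap K R (al F) * y ^ 3 + algebraMap K R ((ap F 2).coeff 2) * (x ^ 2 * y ^ 2) +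
      algebraMap K R ((ap F 1).coeff 4) * (x ^ 4 * y) +
      algebraMap K R ((ap F 0).coeff 6) * x ^ 6 := by
  rw [ev_eq hF, al_eq, ap_coeff F 2 2 (by norm_num), ap_coeff F 1 4 (by norm_num),
    ap_coeff F 0 6 (by norm_num)]
  simp [Finset.sum_range_succ]
  ring

end Pool.Agent.Helper49.CP
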